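import Mathlib
import Pool.Agent.Lib.MP_8c7c0e_co.Blocks

set_option autoImplicit false

namespace Pool.Agent.Results.MP_8c7c0e_co.SparseAlgClosed

open Matrix Polynomial

universe u

/-- The matrix `A` realizes the zero-nonzero pattern whose set of nonzero positions is `P`. -/
def Realizes {F : Type u} [Field F] {n : ℕ} (A : Matrix (Fin n) (Fin n) F)
    (P : Finset (Fin n × Fin n)) : Prop :=
  ∀ i j, A i j ≠ 0 ↔ (i, j) ∈ P

/-- The `n × n` pattern with set of nonzero positions `P` is spectrally arbitrary over `F`: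
each monic polynomial of degree `n` is the characteristic polynomial of a realizing matrix. -/
def SpectrallyArbitrary (F : Type u) [Field F] {n : ℕ} (P : Finset (Fin n × Fin n)) : Prop :=
  ∀ p : F[X], p.Monic → p.natDegree = n →
    ∃ A : Matrix (Fin n) (Fin n) F, Realizes A P ∧ A.charpoly = p

/-- Over every algebraically closed field (of any characteristic), for every `n ≥ 2` there is an
`n × n` zero-nonzero pattern that is spectrally arbitrary and has at most `(9n + 76)/5` nonzero
entries; at most `(7n + 30)/4` if the characteristic is not `5`. -/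
theorem result (F : Type u) [Field F] [IsAlgClosed F] (n : ℕ) (hn : 2 ≤ n) :
    ∃ P : Finset (Fin n × Fin n), SpectrallyArbitrary F P ∧ 5 * P.card ≤ 9 * n + 76 ∧
      (ringChar F ≠ 5 → 4 * P.card ≤ 7 * n + 30) := by
  obtain ⟨Q, hQ, h1, h2⟩ := Pool.Agent.Lib.MP_8c7c0e_co.exists_pattern F n hn
  refine ⟨Finset.univ.filter (fun ij : Fin n × Fin n => Q ij.1 ij.2 = true), ?_, ?_, ?_⟩
  · intro p hp hdeg
    have hsplit : p = Pool.Agent.Lib.MP_8c7c0e_co.rp p.roots :=
      (IsAlgClosed.splits p).eq_prod_roots_of_monic hp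
    have hcard : p.roots.card = n := by
      rw [← hdeg]; exact (IsAlgClosed.splits p).natDegree_eq_card_roots.symm
    obtain ⟨A, hA, hAp⟩ := hQ p.roots hcard
    refine ⟨A, ?_, hAp.trans hsplit.symm⟩
    intro i j
    simpa using hA i j
  · rw [Pool.Agent.Lib.MP_8c7c0e_co.cnt_eq]
    exact h1
  · rw [Pool.Agent.Lib.MP_8c7c0e_co.cnt_eq]
    exact h2

end Pool.Agent.Results.MP_8c7c0e_co.SparseAlgClosed
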